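import Mathlib

/-!
# MP_1dd1a8_co, Q1: cyclic `(v, λ+1, λ)`-designs without disjoint representatives

For every `λ ≥ 2` and `k = λ + 1` we construct, for every prime `p ≡ 1 (mod k)`, a cyclic
`(k p, k, λ)`-design whose block orbits include short ones, and we show by counting that it has no
system of disjoint representatives.
-/

namespace Pool.Agent.Results.MP_1dd1a8_co.NoRepresentatives

open Finset

set_option linter.unusedSectionVars false

/-- The translate `b + t`. -/
def translate {v : ℕ} (b : Finset (ZMod v)) (t : ZMod v) : Finset (ZMod v) :=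
  b.image fun x => x + t

/-- A cyclic `(v, k, l)`-design: a finite multiset of `k`-subsets of `ZMod v` such that any two
distinct points lie in exactly `l` blocks, and translation preserves multiplicities. -/
structure IsCyclicDesign (v k l : ℕ) (𝓑 : Multiset (Finset (ZMod v))) : Prop where
  card_eq : ∀ b ∈ 𝓑, b.card = k
  pair : ∀ x y : ZMod v, x ≠ y → 𝓑.countP (fun b => x ∈ b ∧ y ∈ b) = l
  inv : ∀ (b : Finset (ZMod v)) (t : ZMod v), 𝓑.count (translate b t) = 𝓑.count b

/-- The pair `(O, j)` is a block orbit of `𝓑`: `O` is the translation orbit of a block, and `j`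
numbers one of the copies of `O` (there are as many as the common multiplicity of its members). -/
def IsBlockOrbit {v : ℕ} (𝓑 : Multiset (Finset (ZMod v))) (O : Set (Finset (ZMod v))) (j : ℕ) :
    Prop :=
  ∃ b ∈ 𝓑, O = Set.range (translate b) ∧ j < 𝓑.count b

/-- `𝓑` has a system of disjoint representatives: one block `f O j` from each block orbit
`(O, j)`, the chosen blocks being pairwise disjoint. -/
def HasDisjointReps {v : ℕ} (𝓑 : Multiset (Finset (ZMod v))) : Prop :=
  ∃ f : Set (Finset (ZMod v)) → ℕ → Finset (ZMod v),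
    (∀ O j, IsBlockOrbit 𝓑 O j → f O j ∈ O) ∧
    ∀ O j O' j', IsBlockOrbit 𝓑 O j → IsBlockOrbit 𝓑 O' j' → (O, j) ≠ (O', j') →
      Disjoint (f O j) (f O' j')

/-! ### The counting obstruction -/

section obstruction

variable {v : ℕ} [NeZero v]

lemma translate_add (b : Finset (ZMod v)) (s t : ZMod v) :
    translate (translate b s) t = translate b (s + t) := by
  unfold translate
  rw [Finset.image_image]
  congr 1
  funext x
  simp [add_assoc]

lemma translate_zero (b : Finset (ZMod v)) : translate b 0 = b := by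
  simp [translate]

lemma card_translate (b : Finset (ZMod v)) (t : ZMod v) : (translate b t).card = b.card :=
  Finset.card_image_of_injective _ (add_left_injective t)

/-- the orbit as a finset -/
def orb (b : Finset (ZMod v)) : Finset (Finset (ZMod v)) := univ.image (translate b)

lemma coe_orb (b : Finset (ZMod v)) : (orb b : Set (Finset (ZMod v))) = Set.range (translate b) := by
  simp [orb]

lemma mem_orb_self (b : Finset (ZMod v)) : b ∈ orb b :=
  Finset.mem_image.2 ⟨0, mem_univ _, translate_zero b⟩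

lemma card_orb_le (b : Finset (ZMod v)) : (orb b).card ≤ v := by
  calc (orb b).card ≤ (univ : Finset (ZMod v)).card := Finset.card_image_le
    _ = v := by rw [Finset.card_univ, ZMod.card]

lemma card_orb_short (b : Finset (ZMod v)) (t : ZMod v) (ht : t ≠ 0) (hb : translate b t = b) :
    2 * (orb b).card ≤ v := by
  have : 2 * (orb b).card ≤ (univ : Finset (ZMod v)).card := by
    apply Finset.mul_card_image_le_card
    intro c hc
    obtain ⟨s, -, rfl⟩ := Finset.mem_image.1 hc
    have hsub : ({s, t + s} : Finset (ZMod v)) ⊆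
        (univ : Finset (ZMod v)).filter (fun x => translate b x = translate b s) := by
      intro x hx
      simp only [Finset.mem_insert, Finset.mem_singleton] at hx
      rcases hx with rfl | rfl
      · simp
      · simp only [Finset.mem_filter, Finset.mem_univ, true_and]
        rw [← translate_add, hb]
    refine le_trans ?_ (Finset.card_le_card hsub)
    rw [Finset.card_pair]
    intro h
    exact ht (by simpa using h.symm)
  rwa [Finset.card_univ, ZMod.card] at this

theorem no_reps {k : ℕ} (hk : 3 ≤ k) (𝓑 : Multiset (Finset (ZMod v)))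
    (hinv : ∀ (b : Finset (ZMod v)) (t : ZMod v), 𝓑.count (translate b t) = 𝓑.count b)
    (hcard : ∀ b ∈ 𝓑, b.card = k) (hsize : v * (v - 1) ≤ k * 𝓑.card)
    (hshort : ∃ b ∈ 𝓑, ∃ t : ZMod v, t ≠ 0 ∧ translate b t = b) : ¬ HasDisjointReps 𝓑 := by
  classical
  rintro ⟨f, hf1, hf2⟩
  let 𝓞 : Finset (Finset (Finset (ZMod v))) := 𝓑.toFinset.image orb
  have hrep : ∀ O ∈ 𝓞, ∃ b ∈ 𝓑, orb b = O := by
    intro O hO
    obtain ⟨b, hb, rfl⟩ := Finset.mem_image.1 hO
    exact ⟨b, Multiset.mem_toFinset.1 hb, rfl⟩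
  choose! r hr1 hr2 using hrep
  have hcount : ∀ b b' : Finset (ZMod v), orb b = orb b' → 𝓑.count b = 𝓑.count b' := by
    intro b b' h
    have : b ∈ orb b' := h ▸ mem_orb_self b
    obtain ⟨t, -, rfl⟩ := Finset.mem_image.1 this
    exact hinv b' t
  -- the index set of block orbits
  let I := 𝓞.sigma fun O => Finset.range (𝓑.count (r O))
  have hI : ∀ q ∈ I, IsBlockOrbit 𝓑 (q.1 : Set (Finset (ZMod v))) q.2 := by
    rintro ⟨O, j⟩ hq
    rw [Finset.mem_sigma] at hq
    obtain ⟨hO, hj⟩ := hq
    refine ⟨r O, hr1 O hO, ?_, Finset.mem_range.1 hj⟩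
    change (O : Set (Finset (ZMod v))) = _
    rw [← coe_orb, hr2 O hO]
  have hdisj : Set.PairwiseDisjoint (I : Set (Σ _ : Finset (Finset (ZMod v)), ℕ))
      (fun q => f (q.1 : Set (Finset (ZMod v))) q.2) := by
    rintro ⟨O, j⟩ hq ⟨O', j'⟩ hq' hne
    apply hf2 _ _ _ _ (hI _ hq) (hI _ hq')
    intro h
    apply hne
    rw [Prod.mk.injEq] at h
    obtain ⟨h1, h2⟩ := h
    have h1' : O = O' := Finset.coe_injective h1
    subst h1'
    have h2' : j = j' := h2
    subst h2'
    rfl
  have hfc : ∀ q ∈ I, (f (q.1 : Set (Finset (ZMod v))) q.2).card = k := by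
    rintro ⟨O, j⟩ hq
    obtain ⟨b, hb, hO, hj⟩ := hI _ hq
    have h1 := hf1 _ _ (hI _ hq)
    rw [hO] at h1
    obtain ⟨t, ht⟩ := h1
    rw [← hO] at ht
    change (f (O : Set (Finset (ZMod v))) j).card = k
    change translate b t = f (O : Set (Finset (ZMod v))) j at ht
    rw [← ht, card_translate, hcard b hb]
  have hN : I.card * k ≤ v := by
    have h1 : (I.biUnion fun q => f (q.1 : Set (Finset (ZMod v))) q.2).card = I.card * k := by
      rw [Finset.card_biUnion hdisj, Finset.sum_congr rfl hfc, Finset.sum_const, smul_eq_mul]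
    rw [← h1]
    refine (Finset.card_le_univ _).trans ?_
    rw [ZMod.card]
  have hIcard : I.card = ∑ O ∈ 𝓞, 𝓑.count (r O) := by
    rw [Finset.card_sigma]
    simp
  -- upper bound for the number of blocks
  have hB : 𝓑.card = ∑ O ∈ 𝓞, ∑ b ∈ 𝓑.toFinset.filter (fun b => orb b = O), 𝓑.count b := by
    rw [Finset.sum_fiberwise_of_maps_to (fun b hb => Finset.mem_image_of_mem orb hb),
      Multiset.toFinset_sum_count_eq]
  have hfib : ∀ O ∈ 𝓞, ∑ b ∈ 𝓑.toFinset.filter (fun b => orb b = O), 𝓑.count b
      ≤ O.card * 𝓑.count (r O) := by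
    intro O hO
    have h1 : ∀ b ∈ 𝓑.toFinset.filter (fun b => orb b = O), 𝓑.count b = 𝓑.count (r O) := by
      intro b hb
      apply hcount
      rw [(Finset.mem_filter.1 hb).2, hr2 O hO]
    rw [Finset.sum_congr rfl h1, Finset.sum_const, smul_eq_mul]
    apply Nat.mul_le_mul_right
    apply Finset.card_le_card
    intro b hb
    rw [← (Finset.mem_filter.1 hb).2]
    exact mem_orb_self b
  obtain ⟨b0, hb0, t, ht, hbt⟩ := hshort
  have hO0 : orb b0 ∈ 𝓞 := Finset.mem_image_of_mem _ (Multiset.mem_toFinset.2 hb0)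
  have hm0 : 1 ≤ 𝓑.count (r (orb b0)) := Multiset.one_le_count_iff_mem.2 (hr1 _ hO0)
  have hs0 := card_orb_short b0 t ht hbt
  have hle : ∀ O ∈ 𝓞, O.card ≤ v := by
    intro O hO
    rw [← hr2 O hO]
    exact card_orb_le _
  have h2B : 2 * 𝓑.card + v ≤ 2 * v * I.card := by
    rw [hIcard, hB, ← Finset.add_sum_erase _ _ hO0, ← Finset.add_sum_erase _ _ hO0]
    have hA := hfib _ hO0
    have hR : ∑ O ∈ 𝓞.erase (orb b0), ∑ b ∈ 𝓑.toFinset.filter (fun b => orb b = O), 𝓑.count b
        ≤ v * ∑ O ∈ 𝓞.erase (orb b0), 𝓑.count (r O) := by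
      rw [Finset.mul_sum]
      apply Finset.sum_le_sum
      intro O hO
      have hO' := Finset.mem_of_mem_erase hO
      exact (hfib O hO').trans (Nat.mul_le_mul_right _ (hle O hO'))
    have hm : 2 * ((orb b0).card * 𝓑.count (r (orb b0))) ≤ v * 𝓑.count (r (orb b0)) := by
      rw [← mul_assoc]
      exact Nat.mul_le_mul_right _ hs0
    have hv : v ≤ v * 𝓑.count (r (orb b0)) := Nat.le_mul_of_pos_right _ hm0
    nlinarith
  have hvpos : 0 < v := Nat.pos_of_ne_zero (NeZero.ne v)
  have h3 : 2 * (k * 𝓑.card) + v * k ≤ 2 * v * (I.card * k) := by nlinarith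
  have h4 : 2 * v * (I.card * k) ≤ 2 * v * v := Nat.mul_le_mul_left _ hN
  have h5 : 2 * (v * (v - 1)) + v * k ≤ 2 * v * v := by omega
  have h6 : v * (2 * (v - 1) + k) ≤ v * (2 * v) := by nlinarith
  have h7 := Nat.le_of_mul_le_mul_left h6 hvpos
  omega

end obstruction

/-! ### Developing base blocks -/

section dev

variable {v k : ℕ} [NeZero v] {J : Type} [Fintype J]

/-- all translates of the blocks `{β j i : i}` -/
def dev (β : J → Fin k → ZMod v) : Multiset (Finset (ZMod v)) :=
  (univ : Finset (J × ZMod v)).val.map fun q => univ.image fun i => β q.1 i + q.2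

lemma dev_translate (β : J → Fin k → ZMod v) (t : ZMod v) :
    (dev β).map (fun b => translate b t) = dev β := by
  unfold dev
  rw [Multiset.map_map]
  have h := Multiset.map_univ_val_equiv ((Equiv.refl J).prodCongr (Equiv.addRight t))
  conv_rhs => rw [← h, Multiset.map_map]
  apply Multiset.map_congr rfl
  intro q _
  simp only [Function.comp_apply, translate, Equiv.prodCongr_apply, Prod.map, Equiv.refl_apply,
    Equiv.coe_addRight]
  rw [Finset.image_image]
  congr 1
  funext i
  simp [add_assoc]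

lemma count_of_map (𝓑 : Multiset (Finset (ZMod v)))
    (h : ∀ t, 𝓑.map (fun b => translate b t) = 𝓑) (b : Finset (ZMod v)) (t : ZMod v) :
    𝓑.count (translate b t) = 𝓑.count b := by
  conv_lhs => rw [← h t]
  apply Multiset.count_map_eq_count'
  exact Finset.image_injective (add_left_injective t)

lemma countP_dev (β : J → Fin k → ZMod v) (hβ : ∀ j, Function.Injective (β j)) (x y : ZMod v) :
    (dev β).countP (fun b => x ∈ b ∧ y ∈ b) =
      ((univ : Finset (J × Fin k × Fin k)).filter
        fun q => β q.1 q.2.2 - β q.1 q.2.1 = y - x).card := by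
  classical
  unfold dev
  rw [Multiset.countP_map]
  symm
  apply Finset.card_nbij (fun q => (q.1, x - β q.1 q.2.1))
    (t := (univ : Finset (J × ZMod v)).filter fun q =>
      x ∈ univ.image (fun i => β q.1 i + q.2) ∧ y ∈ univ.image (fun i => β q.1 i + q.2))
  · rintro ⟨j, i, i'⟩ hq
    simp only [Finset.coe_filter, Finset.mem_univ, true_and, Set.mem_ofPred_eq,
      Finset.mem_image] at hq ⊢
    refine ⟨⟨i, by ring⟩, ⟨i', ?_⟩⟩
    linear_combination hq
  · rintro ⟨j, i, i'⟩ hq ⟨j', l, l'⟩ hq' h
    simp only [Finset.coe_filter, Finset.mem_univ, true_and, Set.mem_ofPred_eq] at hq hq'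
    simp only [Prod.mk.injEq] at h
    obtain ⟨rfl, h2⟩ := h
    have h3 : i = l := hβ j (by linear_combination -h2)
    subst h3
    have h4 : i' = l' := hβ j (by linear_combination hq - hq')
    rw [h4]
  · rintro ⟨j, t⟩ hq
    simp only [Finset.coe_filter, Finset.mem_univ, true_and, Set.mem_ofPred_eq,
      Finset.mem_image] at hq
    obtain ⟨⟨i, hi⟩, ⟨i', hi'⟩⟩ := hq
    refine ⟨(j, i, i'), ?_, ?_⟩
    · simp only [Finset.coe_filter, Finset.mem_univ, true_and, Set.mem_ofPred_eq]
      linear_combination hi' - hi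
    · simp only [Prod.mk.injEq, true_and]
      linear_combination -hi

lemma card_mem_dev (β : J → Fin k → ZMod v) (hβ : ∀ j, Function.Injective (β j))
    (b : Finset (ZMod v)) (hb : b ∈ dev β) : b.card = k := by
  unfold dev at hb
  obtain ⟨q, -, rfl⟩ := Multiset.mem_map.1 hb
  rw [Finset.card_image_of_injective, Finset.card_univ, Fintype.card_fin]
  intro i i' h
  exact hβ q.1 (add_right_cancel h)

lemma card_dev (β : J → Fin k → ZMod v) : (dev β).card = Fintype.card J * v := by
  unfold dev
  rw [Multiset.card_map, Finset.card_val, Finset.card_univ, Fintype.card_prod, ZMod.card]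

end dev

/-! ### Units modulo `p` -/

section units

/-- data: a prime `p`, a generator `g` of the units, and `q * k = p - 1` -/
structure Dat (p k q : ℕ) [Fact p.Prime] (g : (ZMod p)ˣ) : Prop where
  gen : ∀ x, x ∈ Subgroup.zpowers g
  mul : q * k = p - 1
  kpos : 2 ≤ k

variable {p k q : ℕ} [Fact p.Prime] {g : (ZMod p)ˣ}

lemma Dat.order (D : Dat p k q g) : orderOf g = p - 1 := by
  rw [orderOf_eq_card_of_forall_mem_zpowers D.gen, Nat.card_eq_fintype_card,
    ZMod.card_units_eq_totient, Nat.totient_prime (Fact.out)]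

lemma Dat.qpos (D : Dat p k q g) : 0 < q := by
  rcases Nat.eq_zero_or_pos q with h | h
  · have := D.mul
    rw [h, zero_mul] at this
    have hp := (Fact.out : p.Prime).two_le
    omega
  · exact h

/-- the enumeration of the units -/
def w (g : (ZMod p)ˣ) (q : ℕ) (j : ℕ) (i : ℕ) : ZMod p := ((g ^ (j + q * i) : (ZMod p)ˣ) : ZMod p)

lemma w_ne (j i : ℕ) : w g q j i ≠ 0 := Units.ne_zero _

lemma w_inj (D : Dat p k q g) {j i j' i' : ℕ} (hj : j < q) (hi : i < k) (hj' : j' < q)
    (hi' : i' < k) (h : w g q j i = w g q j' i') : j = j' ∧ i = i' := by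
  have h1 : g ^ (j + q * i) = g ^ (j' + q * i') := Units.ext h
  have hb : ∀ {a b : ℕ}, a < q → b < k → a + q * b < orderOf g := by
    intro a b ha hb
    rw [D.order, ← D.mul]
    calc a + q * b < q + q * b := by omega
      _ = q * (b + 1) := by ring
      _ ≤ q * k := Nat.mul_le_mul_left _ hb
  have h2 : j + q * i = j' + q * i' := pow_injOn_Iio_orderOf (hb hj hi) (hb hj' hi') h1
  have h3 : i = i' := by
    have e1 : (j + q * i) / q = i := by
      rw [Nat.add_mul_div_left _ _ D.qpos, Nat.div_eq_of_lt hj, zero_add]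
    have e2 : (j' + q * i') / q = i' := by
      rw [Nat.add_mul_div_left _ _ D.qpos, Nat.div_eq_of_lt hj', zero_add]
    rw [← e1, h2, e2]
  subst h3
  exact ⟨by omega, rfl⟩

lemma w_surj (D : Dat p k q g) {u : ZMod p} (hu : u ≠ 0) :
    ∃ j i, j < q ∧ i < k ∧ w g q j i = u := by
  have h1 : Units.mk0 u hu ∈ Subgroup.zpowers g := D.gen _
  rw [← mem_powers_iff_mem_zpowers, mem_powers_iff_mem_range_orderOf] at h1
  obtain ⟨n, hn, hn'⟩ := Finset.mem_image.1 h1
  rw [Finset.mem_range, D.order, ← D.mul] at hn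
  refine ⟨n % q, n / q, Nat.mod_lt _ D.qpos, ?_, ?_⟩
  · exact Nat.div_lt_of_lt_mul hn
  · unfold w
    rw [Nat.mod_add_div, hn']
    rfl

/-- shifting the second index -/
lemma w_shift (D : Dat p k q g) (j : ℕ) {i i' a : ℕ} (h : i' ≡ i + a [MOD k]) :
    w g q j i' = w g q j i * w g q 0 a := by
  unfold w
  rw [← Units.val_mul, ← pow_add]
  congr 1
  rw [pow_eq_pow_iff_modEq, D.order, ← D.mul]
  have h1 : q * i' ≡ q * (i + a) [MOD q * k] := Nat.ModEq.mul_left' q h
  have h2 : j + q * i + (0 + q * a) = j + q * (i + a) := by ring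
  rw [h2]
  exact Nat.ModEq.add_left j h1

/-- the pairs of indices with prescribed difference -/
def sol (g : (ZMod p)ˣ) (q k : ℕ) (a : ZMod k) (b : ZMod p) : Finset (Fin q × Fin k × Fin k) :=
  univ.filter fun r => ((r.2.2 : ℕ) : ZMod k) - ((r.2.1 : ℕ) : ZMod k) = a ∧
    w g q r.1 r.2.2 - w g q r.1 r.2.1 = b

lemma modEq_of_sub {k : ℕ} [NeZero k] {i i' : ℕ} {a : ZMod k}
    (h : (i' : ZMod k) - (i : ZMod k) = a) : i' ≡ i + a.val [MOD k] := by
  rw [← ZMod.natCast_eq_natCast_iff]
  push_cast
  rw [ZMod.natCast_zmod_val, ← h]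
  ring

lemma card_sol (D : Dat p k q g) {a : ZMod k} {b : ZMod p} (ha : a ≠ 0) (hb : b ≠ 0) :
    (sol g q k a b).card = 1 := by
  have : NeZero k := ⟨by have := D.kpos; omega⟩
  have hk := D.kpos
  have hc : w g q 0 a.val - 1 ≠ 0 := by
    intro h
    have h1 : w g q 0 a.val = w g q 0 0 := by
      rw [sub_eq_zero.1 h]
      simp [w]
    have := (w_inj D D.qpos (ZMod.val_lt a) D.qpos (by omega) h1).2
    exact ha ((ZMod.val_eq_zero a).1 this)
  obtain ⟨j, i, hj, hi, hw⟩ := w_surj D (u := b / (w g q 0 a.val - 1)) (div_ne_zero hb hc)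
  rw [Finset.card_eq_one]
  refine ⟨(⟨j, hj⟩, ⟨i, hi⟩, ⟨(i + a.val) % k, Nat.mod_lt _ (by omega)⟩), ?_⟩
  ext ⟨j', i', l'⟩
  simp only [sol, Finset.mem_filter, Finset.mem_univ, true_and, Finset.mem_singleton,
    Prod.mk.injEq]
  constructor
  · rintro ⟨h1, h2⟩
    have h3 := modEq_of_sub h1
    rw [w_shift D j' h3] at h2
    have h4 : w g q j' i' = w g q j i := by
      rw [hw, eq_div_iff hc]
      linear_combination h2
    obtain ⟨h5, h6⟩ := w_inj D j'.2 i'.2 hj hi h4
    refine ⟨Fin.ext h5, Fin.ext h6, Fin.ext ?_⟩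
    change (l' : ℕ) = (i + a.val) % k
    rw [← h6]
    have h7 : (l' : ℕ) % k = ((i' : ℕ) + a.val) % k := h3
    rwa [Nat.mod_eq_of_lt l'.2] at h7
  · rintro ⟨rfl, rfl, rfl⟩
    have h3 : (i + a.val) % k ≡ i + a.val [MOD k] := Nat.mod_modEq _ _
    refine ⟨?_, ?_⟩
    · have h4 : (((i + a.val) % k : ℕ) : ZMod k) = ((i + a.val : ℕ) : ZMod k) :=
        (ZMod.natCast_eq_natCast_iff _ _ _).2 h3
      change (((i + a.val) % k : ℕ) : ZMod k) - ((i : ℕ) : ZMod k) = a
      rw [h4]
      push_cast
      rw [ZMod.natCast_zmod_val]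
      ring
    · change w g q j ((i + a.val) % k) - w g q j i = b
      rw [w_shift D j h3, hw]
      field_simp

lemma sol_a_zero (D : Dat p k q g) {b : ZMod p} (hb : b ≠ 0) :
    (sol g q k 0 b).card = 0 := by
  have : NeZero k := ⟨by have := D.kpos; omega⟩
  rw [Finset.card_eq_zero, Finset.eq_empty_iff_forall_notMem]
  rintro ⟨j, i, i'⟩ h
  simp only [sol, Finset.mem_filter, Finset.mem_univ, true_and] at h
  obtain ⟨h1, h2⟩ := h
  have h3 := modEq_of_sub h1
  rw [ZMod.val_zero, add_zero] at h3
  have h4 : (i' : ℕ) = i := by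
    have h5 : (i' : ℕ) % k = (i : ℕ) % k := h3
    rwa [Nat.mod_eq_of_lt i'.2, Nat.mod_eq_of_lt i.2] at h5
  rw [h4, sub_self] at h2
  exact hb h2.symm

lemma sol_b_zero (D : Dat p k q g) {a : ZMod k} (ha : a ≠ 0) :
    (sol g q k a 0).card = 0 := by
  rw [Finset.card_eq_zero, Finset.eq_empty_iff_forall_notMem]
  rintro ⟨j, i, i'⟩ h
  simp only [sol, Finset.mem_filter, Finset.mem_univ, true_and] at h
  obtain ⟨h1, h2⟩ := h
  have h3 := (w_inj D j.2 i'.2 j.2 i.2 (sub_eq_zero.1 h2)).2
  rw [h3, sub_self] at h1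
  exact ha h1.symm

lemma card_sol_all (D : Dat p k q g) {b : ZMod p} (hb : b ≠ 0) :
    ((univ : Finset (Fin q × Fin k × Fin k)).filter
      fun r => w g q r.1 r.2.2 - w g q r.1 r.2.1 = b).card = k - 1 := by
  classical
  have : NeZero k := ⟨by have := D.kpos; omega⟩
  rw [Finset.card_eq_sum_card_fiberwise (t := (univ : Finset (ZMod k)))
    (f := fun r => ((r.2.2 : ℕ) : ZMod k) - ((r.2.1 : ℕ) : ZMod k)) (fun _ _ => by simp)]
  have h1 : ∀ a ∈ (univ : Finset (ZMod k)),
      (((univ : Finset (Fin q × Fin k × Fin k)).filter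
        fun r => w g q r.1 r.2.2 - w g q r.1 r.2.1 = b).filter
        fun r => ((r.2.2 : ℕ) : ZMod k) - ((r.2.1 : ℕ) : ZMod k) = a).card
        = if a = 0 then 0 else 1 := by
    intro a _
    have h2 : (((univ : Finset (Fin q × Fin k × Fin k)).filter
        fun r => w g q r.1 r.2.2 - w g q r.1 r.2.1 = b).filter
        fun r => ((r.2.2 : ℕ) : ZMod k) - ((r.2.1 : ℕ) : ZMod k) = a) = sol g q k a b := by
      unfold sol
      rw [Finset.filter_filter]
      apply Finset.filter_congr
      intro r _
      tauto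
    rw [h2]
    by_cases ha : a = 0
    · rw [if_pos ha, ha]
      exact sol_a_zero D hb
    · rw [if_neg ha]
      exact card_sol D ha hb
  rw [Finset.sum_congr rfl h1, Finset.sum_ite, Finset.sum_const_zero, zero_add, Finset.sum_const,
    smul_eq_mul, mul_one, Finset.filter_not, Finset.card_sdiff_of_subset (Finset.filter_subset _ _),
    Finset.card_univ, ZMod.card, Finset.filter_eq' univ (0 : ZMod k), if_pos (Finset.mem_univ _),
    Finset.card_singleton]

end units

/-! ### The design -/

section design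

variable {p k q : ℕ} [Fact p.Prime] {g : (ZMod p)ˣ}

/-- base blocks of the first kind -/
noncomputable def beta1 (g : (ZMod p)ˣ) (q : ℕ) (h : Nat.Coprime k p) (j : Fin q) (i : Fin k) :
    ZMod (k * p) :=
  (ZMod.chineseRemainder h).symm (((i : ℕ) : ZMod k), w g q j i)

/-- base blocks of the second kind -/
noncomputable def beta2 (g : (ZMod p)ˣ) (q : ℕ) (h : Nat.Coprime k p) (j : Fin q) (i : Fin k) :
    ZMod (k * p) :=
  (ZMod.chineseRemainder h).symm (0, w g q j i)

/-- the short orbits -/
noncomputable def short (h : Nat.Coprime k p) : Multiset (Finset (ZMod (k * p))) :=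
  (univ : Finset (Fin (k - 1) × ZMod p)).val.map fun r =>
    univ.image fun i : Fin k => (ZMod.chineseRemainder h).symm (((i : ℕ) : ZMod k), r.2)

lemma beta1_inj (D : Dat p k q g) (h : Nat.Coprime k p) (j : Fin q) :
    Function.Injective (beta1 g q h j) := by
  intro i i' hii
  have h1 := (ZMod.chineseRemainder h).symm.injective hii
  rw [Prod.mk.injEq] at h1
  exact Fin.ext (w_inj D j.2 i.2 j.2 i'.2 h1.2).2

lemma beta2_inj (D : Dat p k q g) (h : Nat.Coprime k p) (j : Fin q) :
    Function.Injective (beta2 g q h j) := by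
  intro i i' hii
  have h1 := (ZMod.chineseRemainder h).symm.injective hii
  rw [Prod.mk.injEq] at h1
  exact Fin.ext (w_inj D j.2 i.2 j.2 i'.2 h1.2).2

lemma symm_sub_eq (h : Nat.Coprime k p) (u u' : ZMod k × ZMod p) (d : ZMod (k * p)) :
    (ZMod.chineseRemainder h).symm u - (ZMod.chineseRemainder h).symm u' = d ↔
      u.1 - u'.1 = (ZMod.chineseRemainder h d).1 ∧ u.2 - u'.2 = (ZMod.chineseRemainder h d).2 := by
  rw [← map_sub, RingEquiv.symm_apply_eq, Prod.ext_iff]
  rfl

lemma countP_beta1 [NeZero (k * p)] (D : Dat p k q g) (h : Nat.Coprime k p) (x y : ZMod (k * p)) :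
    (dev (beta1 g q h)).countP (fun b => x ∈ b ∧ y ∈ b) =
      (sol g q k (ZMod.chineseRemainder h (y - x)).1 (ZMod.chineseRemainder h (y - x)).2).card := by
  rw [countP_dev _ (beta1_inj D h)]
  unfold sol beta1
  congr 1
  apply Finset.filter_congr
  intro r _
  rw [symm_sub_eq]

lemma countP_beta2 [NeZero (k * p)] (D : Dat p k q g) (h : Nat.Coprime k p) (x y : ZMod (k * p))
    (hxy : x ≠ y) :
    (dev (beta2 g q h)).countP (fun b => x ∈ b ∧ y ∈ b) =
      if (ZMod.chineseRemainder h (y - x)).1 = 0 then k - 1 else 0 := by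
  rw [countP_dev _ (beta2_inj D h)]
  unfold beta2
  simp only [symm_sub_eq, sub_zero]
  by_cases ha : (ZMod.chineseRemainder h (y - x)).1 = 0
  · rw [if_pos ha]
    have hb : (ZMod.chineseRemainder h (y - x)).2 ≠ 0 := by
      intro hb
      have h0 : ZMod.chineseRemainder h (y - x) = 0 := Prod.ext ha hb
      rw [map_eq_zero_iff _ (ZMod.chineseRemainder h).injective, sub_eq_zero] at h0
      exact hxy h0.symm
    rw [← card_sol_all D hb]
    congr 1
    apply Finset.filter_congr
    intro r _
    rw [ha]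
    simp
  · rw [if_neg ha, Finset.card_eq_zero, Finset.eq_empty_iff_forall_notMem]
    intro r hr
    exact ha (Finset.mem_filter.1 hr).2.1.symm

lemma mem_fibre (hk : 2 ≤ k) (h : Nat.Coprime k p) (c : ZMod p) (x : ZMod (k * p)) :
    x ∈ (univ.image fun i : Fin k => (ZMod.chineseRemainder h).symm (((i : ℕ) : ZMod k), c)) ↔
      (ZMod.chineseRemainder h x).2 = c := by
  have : NeZero k := ⟨by omega⟩
  constructor
  · intro hx
    obtain ⟨i, -, rfl⟩ := Finset.mem_image.1 hx
    rw [RingEquiv.apply_symm_apply]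
  · intro hx
    refine Finset.mem_image.2 ⟨⟨(ZMod.chineseRemainder h x).1.val, ZMod.val_lt _⟩,
      Finset.mem_univ _, ?_⟩
    rw [RingEquiv.symm_apply_eq]
    refine Prod.ext ?_ hx.symm
    change (((ZMod.chineseRemainder h x).1.val : ℕ) : ZMod k) = _
    rw [ZMod.natCast_zmod_val]

lemma countP_short (hk : 2 ≤ k) (h : Nat.Coprime k p) (x y : ZMod (k * p)) :
    (short h).countP (fun b => x ∈ b ∧ y ∈ b) =
      if (ZMod.chineseRemainder h (y - x)).2 = 0 then k - 1 else 0 := by
  classical
  unfold short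
  rw [Multiset.countP_map]
  simp only [mem_fibre hk h]
  have e : (Multiset.filter (fun r : Fin (k - 1) × ZMod p => (ZMod.chineseRemainder h x).2 = r.2 ∧
      (ZMod.chineseRemainder h y).2 = r.2) (univ : Finset (Fin (k - 1) × ZMod p)).val).card =
      ((univ : Finset (Fin (k - 1) × ZMod p)).filter fun r => (ZMod.chineseRemainder h x).2 = r.2 ∧
      (ZMod.chineseRemainder h y).2 = r.2).card := rfl
  rw [e, map_sub]
  by_cases hb : (ZMod.chineseRemainder h y - ZMod.chineseRemainder h x).2 = 0
  · rw [if_pos hb]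
    have hb' : (ZMod.chineseRemainder h y).2 = (ZMod.chineseRemainder h x).2 := sub_eq_zero.1 hb
    have h2 : ((univ : Finset (Fin (k - 1) × ZMod p)).filter fun r =>
        (ZMod.chineseRemainder h x).2 = r.2 ∧ (ZMod.chineseRemainder h y).2 = r.2) =
        (univ : Finset (Fin (k - 1))).image fun c => (c, (ZMod.chineseRemainder h x).2) := by
      ext ⟨c, z⟩
      simp only [hb', and_self, Finset.mem_filter, Finset.mem_univ, true_and, Finset.mem_image,
        Prod.mk.injEq]
      constructor
      · intro hz; exact ⟨c, rfl, hz⟩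
      · rintro ⟨c', -, hz⟩; exact hz
    rw [h2, Finset.card_image_of_injective, Finset.card_univ, Fintype.card_fin]
    intro c c' hcc
    exact (Prod.mk.injEq _ _ _ _ ▸ hcc).1
  · rw [if_neg hb, Finset.card_eq_zero, Finset.eq_empty_iff_forall_notMem]
    intro r hr
    obtain ⟨h1, h2⟩ := (Finset.mem_filter.1 hr).2
    apply hb
    change (ZMod.chineseRemainder h y).2 - (ZMod.chineseRemainder h x).2 = 0
    rw [h1, h2, sub_self]

lemma short_translate (hk : 2 ≤ k) (h : Nat.Coprime k p) (t : ZMod (k * p)) :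
    (short h).map (fun b => translate b t) = short h := by
  classical
  unfold short
  rw [Multiset.map_map]
  have h1 := Multiset.map_univ_val_equiv
    ((Equiv.refl (Fin (k - 1))).prodCongr (Equiv.addRight (ZMod.chineseRemainder h t).2))
  conv_rhs => rw [← h1, Multiset.map_map]
  apply Multiset.map_congr rfl
  intro r _
  ext x
  simp only [Function.comp_apply, Equiv.prodCongr_apply, Prod.map, Equiv.refl_apply,
    Equiv.coe_addRight]
  rw [mem_fibre hk h]
  unfold translate
  rw [Finset.mem_image]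
  constructor
  · rintro ⟨x', hx', rfl⟩
    rw [mem_fibre hk h] at hx'
    rw [map_add, ← hx']
    rfl
  · intro hx
    refine ⟨x - t, ?_, by ring⟩
    rw [mem_fibre hk h, map_sub]
    change (ZMod.chineseRemainder h x).2 - (ZMod.chineseRemainder h t).2 = _
    rw [hx]
    ring

lemma card_mem_short (hk : 2 ≤ k) (h : Nat.Coprime k p) (b : Finset (ZMod (k * p)))
    (hb : b ∈ short h) : b.card = k := by
  unfold short at hb
  obtain ⟨r, -, rfl⟩ := Multiset.mem_map.1 hb
  rw [Finset.card_image_of_injective, Finset.card_univ, Fintype.card_fin]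
  intro i i' hii
  have h1 := (ZMod.chineseRemainder h).symm.injective hii
  rw [Prod.mk.injEq, ZMod.natCast_eq_natCast_iff'] at h1
  have h2 := h1.1
  rw [Nat.mod_eq_of_lt i.2, Nat.mod_eq_of_lt i'.2] at h2
  exact Fin.ext h2

/-- The design. -/
noncomputable def design [NeZero (k * p)] (g : (ZMod p)ˣ) (q : ℕ) (h : Nat.Coprime k p) :
    Multiset (Finset (ZMod (k * p))) :=
  (k - 1) • dev (beta1 g q h) + dev (beta2 g q h) + short h

lemma design_translate [NeZero (k * p)] (hk : 2 ≤ k) (h : Nat.Coprime k p) (t : ZMod (k * p)) :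
    (design g q h).map (fun b => translate b t) = design g q h := by
  unfold design
  rw [Multiset.map_add, Multiset.map_add, Multiset.map_nsmul, dev_translate, dev_translate,
    short_translate hk]

theorem design_isCyclic [NeZero (k * p)] (D : Dat p k q g) (h : Nat.Coprime k p) :
    IsCyclicDesign (k * p) k (k - 1) (design g q h) := by
  have hk := D.kpos
  refine ⟨?_, ?_, ?_⟩
  · intro b hb
    unfold design at hb
    rw [Multiset.mem_add, Multiset.mem_add] at hb
    rcases hb with (hb | hb) | hb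
    · exact card_mem_dev _ (beta1_inj D h) b (Multiset.mem_of_mem_nsmul hb)
    · exact card_mem_dev _ (beta2_inj D h) b hb
    · exact card_mem_short hk h b hb
  · intro x y hxy
    unfold design
    rw [Multiset.countP_add, Multiset.countP_add, Multiset.countP_nsmul, countP_beta1 D h,
      countP_beta2 D h x y hxy, countP_short hk h]
    have h0 : ¬ ((ZMod.chineseRemainder h (y - x)).1 = 0 ∧
        (ZMod.chineseRemainder h (y - x)).2 = 0) := by
      rintro ⟨ha, hb⟩
      have h0 : ZMod.chineseRemainder h (y - x) = 0 := Prod.ext ha hb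
      rw [map_eq_zero_iff _ (ZMod.chineseRemainder h).injective, sub_eq_zero] at h0
      exact hxy h0.symm
    by_cases ha : (ZMod.chineseRemainder h (y - x)).1 = 0
    · have hb : (ZMod.chineseRemainder h (y - x)).2 ≠ 0 := fun hb => h0 ⟨ha, hb⟩
      rw [if_pos ha, if_neg hb, ha, sol_a_zero D hb]
      simp
    · rw [if_neg ha]
      by_cases hb : (ZMod.chineseRemainder h (y - x)).2 = 0
      · rw [if_pos hb, hb, sol_b_zero D ha]
        simp
      · rw [if_neg hb, card_sol D ha hb]
        simp
  · exact count_of_map _ (design_translate hk h)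

end design

/-- **Negative answer to Q1.** For every `l ≥ 2` and `k = l + 1` (so `l + 1 ≤ k ≤ 2 l`) there are
infinitely many `v` for which some cyclic `(v, k, l)`-design has no system of disjoint
representatives. -/
theorem result : ∀ l : ℕ, 2 ≤ l → ∀ v₀ : ℕ, ∃ v : ℕ, v₀ ≤ v ∧
    ∃ 𝓑 : Multiset (Finset (ZMod v)), IsCyclicDesign v (l + 1) l 𝓑 ∧ ¬ HasDisjointReps 𝓑 := by
  intro l hl v₀
  obtain ⟨p, hp, hpgt, hmod⟩ := Nat.exists_prime_gt_modEq_one (k := l + 1) (v₀ + l + 1) (by omega)
  have : Fact p.Prime := ⟨hp⟩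
  have hcop : Nat.Coprime (l + 1) p := by
    rw [Nat.coprime_comm]
    apply (Nat.Prime.coprime_iff_not_dvd hp).2
    intro hd
    have := Nat.le_of_dvd (by omega) hd
    omega
  have hNZ : NeZero ((l + 1) * p) := ⟨by
    have := hp.pos
    positivity⟩
  obtain ⟨g, hg⟩ := IsCyclic.exists_generator (α := (ZMod p)ˣ)
  have hdvd : (l + 1) ∣ p - 1 := (Nat.modEq_iff_dvd' hp.one_lt.le).1 hmod.symm
  obtain ⟨q, hq⟩ := hdvd
  have D : Dat p (l + 1) q g := ⟨hg, by rw [hq, mul_comm], by omega⟩
  refine ⟨(l + 1) * p, by nlinarith [hp.pos], design g q hcop, ?_, ?_⟩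
  · exact design_isCyclic D hcop
  · have hcyc := design_isCyclic D hcop
    apply no_reps (k := l + 1) (by omega) _ hcyc.inv hcyc.card_eq
    · unfold design
      rw [Multiset.card_add, Multiset.card_add, Multiset.card_nsmul, card_dev, card_dev]
      have hs : (short hcop).card = (l + 1 - 1) * p := by
        unfold short
        rw [Multiset.card_map, Finset.card_val, Finset.card_univ, Fintype.card_prod,
          Fintype.card_fin, ZMod.card]
      rw [hs, Fintype.card_fin]
      have hp1 : p = (l + 1) * q + 1 := by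
        have := hp.pos
        omega
      have e1 : l + 1 - 1 = l := rfl
      rw [e1]
      have e2 : (l + 1) * p - 1 = (l + 1) * ((l + 1) * q) + l := by
        rw [hp1]
        have : (l + 1) * ((l + 1) * q + 1) = (l + 1) * ((l + 1) * q) + l + 1 := by ring
        omega
      rw [e2]
      apply le_of_eq
      ring
    · refine ⟨univ.image fun i : Fin (l + 1) =>
        (ZMod.chineseRemainder hcop).symm (((i : ℕ) : ZMod (l + 1)), 0), ?_, ?_⟩
      · unfold design
        rw [Multiset.mem_add]
        right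
        unfold short
        refine Multiset.mem_map.2 ⟨(⟨0, by omega⟩, 0), Finset.mem_univ_val _, rfl⟩
      · refine ⟨(ZMod.chineseRemainder hcop).symm (1, 0), ?_, ?_⟩
        · intro h0
          rw [map_eq_zero_iff _ (ZMod.chineseRemainder hcop).symm.injective,
            Prod.mk_eq_zero] at h0
          have : Fact (1 < l + 1) := ⟨by omega⟩
          exact one_ne_zero h0.1
        · ext x
          rw [mem_fibre (by omega) hcop]
          unfold translate
          rw [Finset.mem_image]
          constructor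
          · rintro ⟨x', hx', rfl⟩
            rw [mem_fibre (by omega) hcop] at hx'
            rw [map_add, RingEquiv.apply_symm_apply]
            change (ZMod.chineseRemainder hcop x').2 + 0 = 0
            rw [hx', add_zero]
          · intro hx
            refine ⟨x - (ZMod.chineseRemainder hcop).symm (1, 0), ?_, by ring⟩
            rw [mem_fibre (by omega) hcop, map_sub, RingEquiv.apply_symm_apply]
            change (ZMod.chineseRemainder hcop x).2 - 0 = 0
            rw [hx, sub_zero]

end Pool.Agent.Results.MP_1dd1a8_co.NoRepresentatives
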